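import Mathlib
import Pool.Agent.H994.Mld.Defs
import Pool.Agent.H994.Mld.Main

namespace Pool.Agent.Results.MP_885f6d_mp.HoneycombMld

open H994.Mld

/-- **Every polygonal tiling of finite local complexity is mutually locally derivable with a
polygonal tiling whose induced graph is the honeycomb lattice, and whose Laplacian therefore has no
locally-supported eigenfunction.** -/
theorem result (C : Type) (T : Set (Tile C)) (hT : IsTiling T) (hF : FLC T) :
    ∃ (C' : Type) (T' : Set (Tile C')), IsTiling T' ∧ MLD T T' ∧
      (∃ e : (ℤ × ℤ × Bool) ≃ T', ∀ k l, Adj (e k).1 (e l).1 ↔ HexAdj k l) ∧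
      (∀ v : T', {u : T' | Adj u.1 v.1}.ncard = 3) ∧ ¬ HasLocallySupportedEigenfunction T' :=
  main C T hT hF

end Pool.Agent.Results.MP_885f6d_mp.HoneycombMld
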